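import Pool.Agent.H94.PT.M32

/-!
# A metric on `S^2 × ℝ^3` all of whose tubes about the soul are positively curved (MP_55c470_gt, Q1)

The weak Hopf conjecture of Gromoll and Tapp is false.  There is a complete Riemannian metric `g` of nonnegative sectional curvature on
`E = S^2 × ℝ^3` such that `S^2 × {0}` is a soul of `(E, g)` (a compact, totally geodesic and totally convex submanifold; `E` is its normal bundle) and such
that for every `r > 0` the distance sphere `Σ_r = {x ∈ E : d_g(x, S^2 × {0}) = r}` is `{(y, w) : |w| = r}`, the image of the injective immersion
`(y, z) ↦ (y, r z)` of `S^2 × S^2`, and the metric induced by `g` on `Σ_r` has positive sectional curvature at every point.  In particular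
`S^2 × S^2` has a metric of positive sectional curvature.

This is the negated form of Q1 with `n = 2`, `k = 3`, and for all `r > 0` instead of arbitrarily small `r > 0`.

Everything is stated for the manifolds of Mathlib: `S2` is `Metric.sphere (0 : EuclideanSpace ℝ (Fin 3)) 1` with its stereographic charts, `S^2 × ℝ^3` and
`S^2 × S^2` are product manifolds, a metric is a `ContMDiffRiemannianMetric` of class `C^∞`, the distance is `riemannianEDist` (the infimum of the lengths of
the curves of class `C^1`), and completeness is completeness of the metric space `EMetricSpace.ofRiemannianMetric`.  The curvature `curv g p x y` is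
`g(R(x,y)y,x)` at `p`, computed in the preferred chart at `p`; for linearly independent `x`, `y` the sectional curvature of their plane is the quotient of
`curv g p x y` by `g(x,x) g(y,y) - g(x,y)^2 > 0`.

The metric: `P = S^2 × SO(3)` has a metric of positive sectional curvature, invariant under `SO(3)`, for which `P → S^2` is a Riemannian submersion with fibre
metrics `r^2 (1 - (r^2/3) κ)`; the connection and the tensor `κ` come from the Euler top.  `E = P ×_{SO(3)} ℝ^3` with the quotient of the product metric.
-/

open scoped Manifold

namespace Pool.Agent.Results.MP_55c470_gt.PositiveTubes

open Pool.Agent.HS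

/-- There is a complete Riemannian metric of nonnegative sectional curvature on `S^2 × ℝ^3` with soul `S^2 × {0}` for which all distance spheres about the soul
have positive sectional curvature. -/
theorem result : HasMetricWithPositiveTubes (𝓡 2) S2 R3 2 := by
  obtain ⟨g, h⟩ := exists_hasPositiveTubes
  exact ⟨g, ⟨h.complete, h.nonneg, h.soul_immersion, isCompact_range h.soul_immersion.smooth.continuous, h.soul_geodesic,
    h.soul_convex, h.sphere_immersion, h.sphere_eq, h.sphere_pos⟩⟩

end Pool.Agent.Results.MP_55c470_gt.PositiveTubes
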